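import Pool.Agent.Helper99_PW.DER
import Pool.Agent.Helper27_PW.FGS
import Pool.Agent.Helper48_PW.FGM
import Pool.Agent.Helper24_PW.FGX
import Pool.Agent.Helper85_PW.FGZ
import Pool.Agent.Helper92_PW.FGP
import Pool.Agent.Helper81_PW.RRS
import Pool.Agent.Helper26_PW.DLT
import Pool.Agent.Helper15_PW.EUF
import Pool.Agent.Helper60_PW.VAN
import Pool.Agent.Helper51_PW.DSC
import Pool.Agent.Helper20_PW.EUL
import Pool.Agent.Helper19_PW.LOC
import Pool.Agent.Helper14_PW.FIL
import Pool.Agent.Helper68_PW.DFI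
import Pool.Agent.Helper68_PW.DDL
import Pool.Agent.Helper74_PW.DET
import Pool.Agent.Helper47_PW.LIN
import Pool.Agent.Helper26_PW.RID
import Pool.Agent.Helper47_PW.WWM
import Pool.Agent.Helper60_PW.REW
import Pool.Agent.Helper41_PW.BAD
import Pool.Agent.Helper18_PW.ZER
import Pool.Agent.Helper14_PW.STP
import Pool.Agent.Helper68_PW.THP
import Pool.Agent.Helper58_PW.PIV
import Pool.Agent.Helper58_PW.PIVS
import Pool.Agent.Helper58_PW.PNT
import Pool.Agent.Helper58_PW.GNF

/-!
# Squad PW: theorem P (assembly of the rows)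
-/

set_option autoImplicit false

namespace Pool.Agent.PW

theorem aDer : DerStmt := H99.der
theorem aFgs : FgsStmt := H27.fgs
theorem aFgm : FgmStmt := H48.fgm aDer
theorem aFgx : FgxStmt := H24.fgx aFgs aFgm
theorem aFgz : FgzStmt := H85.fgz aDer
theorem aFgp : FgpStmt := H92.fgp aDer
theorem aRrs : RrsStmt := H81.rrs aDer
theorem aDlt : DltStmt := H26.dlt aDer aFgp
theorem aEuf : EufStmt := H15.euf aFgs aFgm aFgx aFgz aFgp aRrs aDlt
theorem aVan : VanStmt := H60.van aFgz
theorem aPivs : PivsStmt := H58.pivs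
theorem aDsc : DscStmt := H51.dsc aPivs aVan aEuf aFgs aFgm aRrs
theorem aLoc : LocStmt := H19.loc H20.eul aDer aDlt
theorem aFil : FilStmt := H14.fil aLoc H58.pnt
theorem aDet : DetStmt := H74.det (H68.dfi aDlt) H68.ddl aDlt
theorem aWwm : WwmStmt := H47.wwm aFgm aFgs aRrs
theorem aRew : RewStmt := H60.rew H47.lin H26.rid aWwm aFgs aRrs
theorem aBad : BadStmt := H41.bad aWwm aFgm aFgx aFgz aRrs
theorem aZer : ZerStmt := H18.zer aDer
theorem aBas : BasStmt := H81.bas aZer aFgz
theorem aStp : StpStmt :=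
  H14.stp aFil aDsc aDet aRew H58.piv aFgm aFgp aFgs aRrs aZer aWwm

/-- Theorem P. -/
theorem aThp : ThpStmt := H68.thp aStp aBad aWwm aBas

/-- The generator is free. -/
theorem aGnf : GnfStmt := H58.gnf

end Pool.Agent.PW
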