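import Pool.Agent.Helper82_PW.Clu

/-!
# Squad PW, block 7: sums of products of forms
-/

set_option autoImplicit false

namespace Pool.Agent.PW.H82

open MvPolynomial Pool.Agent.PW

variable {E : Type} [Field E]

/-- A product over a set with at most `c` elements as a product over `Fin c`. -/
theorem exists_pad {M α : Type} [CommMonoid M] (c : ℕ) (V : Finset α) (hV : V.card ≤ c)
    (f : α → M) : ∃ b : Fin c → M, (∀ l, b l = 1 ∨ ∃ v, b l = f v) ∧ ∏ l, b l = ∏ v ∈ V, f v := by
  classical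
  obtain ⟨L, hL⟩ : ∃ L : List M, L = V.toList.map f ++ List.replicate (c - V.card) 1 := ⟨_, rfl⟩
  have hlen : L.length = c := by
    rw [hL, List.length_append, List.length_map, List.length_replicate, Finset.length_toList]
    omega
  refine ⟨fun l => L.get (Fin.cast hlen.symm l), fun l => ?_, ?_⟩
  · have h1 : L.get (Fin.cast hlen.symm l) ∈ L := List.get_mem _ _
    show L.get (Fin.cast hlen.symm l) = 1 ∨ ∃ v, L.get (Fin.cast hlen.symm l) = f v
    generalize L.get (Fin.cast hlen.symm l) = x at h1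
    rw [hL, List.mem_append] at h1
    rcases h1 with h | h
    · obtain ⟨v, -, hv⟩ := List.mem_map.1 h
      exact Or.inr ⟨v, hv.symm⟩
    · exact Or.inl (List.eq_of_mem_replicate h)
  · have h1 : ∏ l : Fin c, L.get (Fin.cast hlen.symm l) = ∏ l : Fin L.length, L.get l :=
      Equiv.prod_comp (finCongr hlen.symm) fun l => L.get l
    rw [h1, ← List.prod_ofFn, List.ofFn_get, hL, List.prod_append, List.prod_replicate, one_pow,
      mul_one, Finset.prod_map_toList]

/-- Products which differ in few factors from one product form a cluster. -/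
theorem cl_near (c n N M : ℕ)
    (f : Fin N → MvPolynomial ℕ E)
    (V : Fin M → Finset (Fin N)) (a : Fin M → MvPolynomial ℕ E)
    (hf : ∀ v, IsForm c n (f v))
    (hV : ∀ u, (V u).card ≤ c)
    (ha : ∀ u, (a u).vars ⊆ Finset.range n ∧ ∀ s ∈ (a u).support, s.support.card ≤ c) :
    IsCl E c n (∑ u, a u * ∏ v ∈ (V u)ᶜ, f v) := by
  classical
  let f' : Fin N → MvPolynomial ℕ E := fun v => if f v = 0 then 1 else f v
  let a' : Fin M → MvPolynomial ℕ E := fun u => if ∃ v ∈ (V u)ᶜ, f v = 0 then 0 else a u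
  have h1f : IsForm c n (1 : MvPolynomial ℕ E) := by
    have h := isForm_const (c := c) (n := n) (1 : E)
    rwa [map_one] at h
  have hf0 : ∀ v, f' v ≠ 0 := by
    intro v
    simp only [f']
    split_ifs with h
    · exact one_ne_zero
    · exact h
  have hf' : ∀ v, IsForm c n (f' v) := by
    intro v
    simp only [f']
    split_ifs with h
    · exact h1f
    · exact hf v
  have ha' : ∀ u, (a' u).vars ⊆ Finset.range n ∧ ∀ s ∈ (a' u).support, s.support.card ≤ c := by
    intro u
    simp only [a']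
    split_ifs with h
    · simp
    · exact ha u
  have hterm : ∀ u, a u * ∏ v ∈ (V u)ᶜ, f v = a' u * ∏ v ∈ (V u)ᶜ, f' v := by
    intro u
    simp only [a']
    split_ifs with h
    · obtain ⟨v, hv, h0⟩ := h
      rw [Finset.prod_eq_zero hv h0, mul_zero, zero_mul]
    · congr 1
      refine Finset.prod_congr rfl fun v hv => ?_
      simp only [f']
      rw [if_neg]
      exact fun h0 => h ⟨v, hv, h0⟩
  choose b hb1 hb2 using fun u => exists_pad c (V u) (hV u) f'
  refine ⟨N, M, f', a', b, hf', ha', ?_, ?_⟩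
  · intro u l
    rcases hb1 u l with h | ⟨v, h⟩
    · rw [h]
      exact ⟨h1f, one_ne_zero⟩
    · rw [h]
      exact ⟨hf' v, hf0 v⟩
  · simp only [hb2]
    rw [Finset.sum_mul, Finset.mul_sum]
    refine Finset.sum_congr rfl fun u _ => ?_
    rw [hterm u]
    have h1 : ∏ v, f' v = (∏ v ∈ V u, f' v) * ∏ v ∈ (V u)ᶜ, f' v :=
      (Finset.prod_mul_prod_compl _ _).symm
    have h2 : ∏ t, ∏ v ∈ V t, f' v =
        (∏ v ∈ V u, f' v) * ∏ t' ∈ Finset.univ.erase u, ∏ v ∈ V t', f' v :=
      (Finset.mul_prod_erase _ _ (Finset.mem_univ u)).symm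
    rw [h1, h2]
    ring

/-- A product is a cluster. -/
theorem cl_prod (c n N : ℕ) (f : Fin N → MvPolynomial ℕ E)
    (hf : ∀ v, IsForm c n (f v)) :
    IsCl E c n (∏ v, f v) := by
  have h1f : IsForm c n (1 : MvPolynomial ℕ E) := by
    have h := isForm_const (c := c) (n := n) (1 : E)
    rwa [map_one] at h
  refine ⟨N, 1, f, fun _ => 1, fun _ _ => 1, hf, ?_, fun _ _ => ⟨h1f, one_ne_zero⟩, ?_⟩
  · intro t
    have h : (1 : MvPolynomial ℕ E) = C 1 := (map_one C).symm
    refine ⟨by simp, fun s hs => ?_⟩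
    have h2 := og_C (c := c) (G := ∅) (1 : E) s (by rw [map_one]; exact hs)
    rwa [Finset.sdiff_empty] at h2
  · simp

/-- Sums of `k` products. -/
theorem pc_sum (k c n : ℕ) (e : Fin k → E) (N : Fin k → ℕ)
    (f : ∀ i : Fin k, Fin (N i) → MvPolynomial ℕ E)
    (hf : ∀ i v, IsForm c n (f i v)) :
    IsPC E k c n (∑ i, C (e i) * ∏ v, f i v) := by
  refine ⟨k, fun i => ∏ v, f i v, ∑ i, C (e i) * X i, fun i => cl_prod c n (N i) (f i) (hf i),
    fun s _ => ?_, ?_⟩
  · exact (Finset.card_le_univ s).trans (by simp)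
  · rw [map_sum]
    refine Finset.sum_congr rfl fun i _ => ?_
    rw [map_mul, aeval_X, aeval_C]
    rfl

/-- Sums of `k` clusters of products. -/
theorem pc_near (k c n : ℕ)
    (N M : Fin k → ℕ)
    (f : ∀ i : Fin k, Fin (N i) → MvPolynomial ℕ E)
    (V : ∀ i : Fin k, Fin (M i) → Finset (Fin (N i)))
    (a : ∀ i : Fin k, Fin (M i) → MvPolynomial ℕ E)
    (hf : ∀ i v, IsForm c n (f i v))
    (hV : ∀ i u, (V i u).card ≤ c)
    (ha : ∀ i u, (a i u).vars ⊆ Finset.range n ∧ ∀ s ∈ (a i u).support, s.support.card ≤ c) :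
    IsPC E k c n (∑ i, ∑ u, a i u * ∏ v ∈ (V i u)ᶜ, f i v) := by
  refine ⟨k, fun i => ∑ u, a i u * ∏ v ∈ (V i u)ᶜ, f i v, ∑ i, X i,
    fun i => cl_near c n (N i) (M i) (f i) (V i) (a i) (hf i) (hV i) (ha i),
    fun s _ => ?_, ?_⟩
  · exact (Finset.card_le_univ s).trans (by simp)
  · rw [map_sum]
    refine Finset.sum_congr rfl fun i _ => ?_
    rw [aeval_X]

end Pool.Agent.PW.H82
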