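import Pool.Agent.PW.Defs
import Pool.Agent.Helper82_RS.Junta

/-!
# Squad PW, block 7: polynomials whose monomials have few variables; forms
-/

set_option autoImplicit false

namespace Pool.Agent.PW.H82

open MvPolynomial Pool.Agent.PW
open Pool.Agent.RS (FF io io_injective)

variable {E : Type} [Field E]

/-- Every monomial of `a` has at most `c` variables outside of `G`. -/
def OG (c : ℕ) (G : Finset ℕ) (a : MvPolynomial ℕ E) : Prop :=
  ∀ s ∈ a.support, (s.support \ G).card ≤ c

theorem og_mono {c c' : ℕ} (h : c ≤ c') {G : Finset ℕ} {a : MvPolynomial ℕ E} (ha : OG c G a) :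
    OG c' G a := fun s hs => (ha s hs).trans h

theorem og_zero {c : ℕ} {G : Finset ℕ} : OG c G (0 : MvPolynomial ℕ E) := by
  intro s hs
  simp at hs

theorem og_C {c : ℕ} {G : Finset ℕ} (e : E) : OG c G (C e : MvPolynomial ℕ E) := by
  classical
  intro s hs
  have h := support_monomial_subset (s := (0 : ℕ →₀ ℕ)) (a := e) hs
  rw [Finset.mem_singleton] at h
  rw [h]
  simp

theorem og_add {c : ℕ} {G : Finset ℕ} {a b : MvPolynomial ℕ E} (ha : OG c G a) (hb : OG c G b) :
    OG c G (a + b) := by
  classical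
  intro s hs
  rcases Finset.mem_union.1 (support_add hs) with h | h
  · exact ha s h
  · exact hb s h

theorem og_neg {c : ℕ} {G : Finset ℕ} {a : MvPolynomial ℕ E} (ha : OG c G a) :
    OG c G (-a) := by
  intro s hs
  rw [support_neg] at hs
  exact ha s hs

theorem og_sum {ι : Type} {c : ℕ} {G : Finset ℕ} (S : Finset ι) (a : ι → MvPolynomial ℕ E)
    (ha : ∀ i ∈ S, OG c G (a i)) : OG c G (∑ i ∈ S, a i) := by
  classical
  induction S using Finset.induction_on with
  | empty => rw [Finset.sum_empty]; exact og_zero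
  | insert i S hi ih =>
    rw [Finset.sum_insert hi]
    exact og_add (ha i (Finset.mem_insert_self i S))
      (ih fun j hj => ha j (Finset.mem_insert_of_mem hj))

theorem og_mul {c c' : ℕ} {G : Finset ℕ} {a b : MvPolynomial ℕ E} (ha : OG c G a)
    (hb : OG c' G b) : OG (c + c') G (a * b) := by
  classical
  intro s hs
  obtain ⟨u, hu, v, hv, rfl⟩ := Finset.mem_add.1 (support_mul a b hs)
  have h1 : (u + v).support \ G ⊆ (u.support \ G) ∪ (v.support \ G) := by
    intro i hi
    rw [Finset.mem_sdiff] at hi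
    rcases Finset.mem_union.1 (Finsupp.support_add hi.1) with h | h
    · exact Finset.mem_union_left _ (Finset.mem_sdiff.2 ⟨h, hi.2⟩)
    · exact Finset.mem_union_right _ (Finset.mem_sdiff.2 ⟨h, hi.2⟩)
  exact (Finset.card_le_card h1).trans ((Finset.card_union_le _ _).trans
    (Nat.add_le_add (ha u hu) (hb v hv)))

theorem og_prod {ι : Type} {c : ℕ} {G : Finset ℕ} (S : Finset ι) (a : ι → MvPolynomial ℕ E)
    (ha : ∀ i ∈ S, OG c G (a i)) : OG (S.card * c) G (∏ i ∈ S, a i) := by
  classical
  induction S using Finset.induction_on with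
  | empty =>
    rw [Finset.prod_empty]
    exact og_C 1
  | insert i S hi ih =>
    rw [Finset.prod_insert hi, Finset.card_insert_of_notMem hi, add_mul, one_mul, add_comm]
    exact og_mul (ha i (Finset.mem_insert_self i S))
      (ih fun j hj => ha j (Finset.mem_insert_of_mem hj))

/-- the monomials of a derivative -/
theorem pderiv_support (i : ℕ) (a : MvPolynomial ℕ E) {s : ℕ →₀ ℕ} (hs : s ∈ (pderiv i a).support) :
    ∃ u ∈ a.support, i ∈ u.support ∧ s = u - Finsupp.single i 1 := by
  classical
  rw [a.as_sum, map_sum] at hs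
  have h1 := Finset.mem_biUnion.1 (support_sum hs)
  obtain ⟨u, hu, hsu⟩ := h1
  rw [pderiv_monomial] at hsu
  have h2 := Finset.mem_singleton.1 (support_monomial_subset hsu)
  refine ⟨u, hu, ?_, h2⟩
  rw [Finsupp.mem_support_iff]
  intro h3
  rw [h3, Nat.cast_zero, mul_zero, map_zero] at hsu
  simp at hsu

theorem og_pderiv {c : ℕ} {G : Finset ℕ} (i : ℕ) {a : MvPolynomial ℕ E} (ha : OG c G a) :
    OG c G (pderiv i a) := by
  intro s hs
  obtain ⟨u, hu, -, rfl⟩ := pderiv_support i a hs
  refine (Finset.card_le_card ?_).trans (ha u hu)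
  intro j hj
  rw [Finset.mem_sdiff] at hj ⊢
  refine ⟨?_, hj.2⟩
  have h := hj.1
  rw [Finsupp.mem_support_iff] at h ⊢
  intro h0
  apply h
  rw [Finsupp.tsub_apply, h0, Nat.zero_sub]

theorem og_pderiv_insert {c : ℕ} {G : Finset ℕ} {i : ℕ} (hi : i ∉ G) {a : MvPolynomial ℕ E}
    (ha : OG (c + 1) G a) : OG c (insert i G) (pderiv i a) := by
  classical
  intro s hs
  obtain ⟨u, hu, hiu, rfl⟩ := pderiv_support i a hs
  have h1 := ha u hu
  have h2 : (u - Finsupp.single i 1).support \ insert i G ⊆ (u.support \ G).erase i := by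
    intro j hj
    rw [Finset.mem_sdiff, Finset.mem_insert, not_or] at hj
    rw [Finset.mem_erase, Finset.mem_sdiff]
    refine ⟨hj.2.1, ?_, hj.2.2⟩
    have h := hj.1
    rw [Finsupp.mem_support_iff] at h ⊢
    intro h0
    apply h
    rw [Finsupp.tsub_apply, h0, Nat.zero_sub]
  have h3 : i ∈ u.support \ G := Finset.mem_sdiff.2 ⟨hiu, hi⟩
  have h4 := Finset.card_le_card h2
  rw [Finset.card_erase_of_mem h3] at h4
  omega

/-- Polynomials whose monomials have at most `c` variables satisfy `FG`. -/
theorem fg_of_og (hdd : ∀ (i : ℕ) (f : MvPolynomial ℕ E), dd i (io E f) = io E (pderiv i f))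
    (c : ℕ) : ∀ (G : Finset ℕ) (a : MvPolynomial ℕ E), OG c G a → FG c G (io E a) := by
  induction c with
  | zero =>
    intro G a ha i hi
    rw [hdd]
    have h : pderiv i a = 0 := by
      by_contra hne
      obtain ⟨s, hs⟩ := support_nonempty.2 hne
      obtain ⟨u, hu, hiu, -⟩ := pderiv_support i a hs
      have h1 := ha u hu
      have h2 : i ∈ u.support \ G := Finset.mem_sdiff.2 ⟨hiu, hi⟩
      have h3 := Finset.card_pos.2 ⟨i, h2⟩
      omega
    rw [h, map_zero]
  | succ c ih =>
    intro G a ha i hi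
    rw [hdd]
    exact ih _ _ (og_pderiv_insert hi ha)

theorem rr_io (k : ℕ) (a : MvPolynomial ℕ E) : RR k (io E a) :=
  ⟨a, 1, (JUN E k).one_mem, by rw [map_one, div_one]⟩

/-! ### Forms -/

/-- `f = h + ∑ i < n, g_i(x_i)`, where `h` depends on at most `c` of the variables
`x_0, ..., x_(n-1)`. -/
def IsForm (c n : ℕ) (f : MvPolynomial ℕ E) : Prop :=
  ∃ (h : MvPolynomial ℕ E) (g : ℕ → Polynomial E), h.vars.card ≤ c ∧ h.vars ⊆ Finset.range n ∧
    f = h + ∑ i ∈ Finset.range n, Polynomial.aeval (X i) (g i)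

theorem aeval_X_vars (i : ℕ) (g : Polynomial E) :
    (Polynomial.aeval (X i : MvPolynomial ℕ E) g).vars ⊆ {i} := by
  have h1 : Polynomial.aeval (X i : MvPolynomial ℕ E) g ∈
      supported E (({i} : Finset ℕ) : Set ℕ) := by
    rw [Polynomial.aeval_eq_sum_range]
    refine Subalgebra.sum_mem _ fun j _ => ?_
    refine Subalgebra.smul_mem _ (Subalgebra.pow_mem _ ?_ _) _
    exact X_mem_supported.2 (by simp)
  rw [mem_supported] at h1
  exact_mod_cast h1

theorem isForm_vars {c n : ℕ} {f : MvPolynomial ℕ E} (hf : IsForm c n f) :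
    f.vars ⊆ Finset.range n := by
  classical
  obtain ⟨h, g, -, hh, rfl⟩ := hf
  refine (vars_add_subset _ _).trans (Finset.union_subset hh ?_)
  refine (vars_sum_subset _ _).trans (Finset.biUnion_subset.2 fun i hi => ?_)
  exact (aeval_X_vars i (g i)).trans (Finset.singleton_subset_iff.2 hi)

theorem isForm_const {c n : ℕ} (e : E) : IsForm c n (C e : MvPolynomial ℕ E) :=
  ⟨C e, fun _ => 0, by simp, by simp, by simp⟩

theorem isForm_junta {c n : ℕ} {f : MvPolynomial ℕ E} (hc : f.vars.card ≤ c)
    (hn : f.vars ⊆ Finset.range n) : IsForm c n f :=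
  ⟨f, fun _ => 0, hc, hn, by simp⟩

theorem pderiv_aeval_X (i j : ℕ) (g : Polynomial E) :
    pderiv j (Polynomial.aeval (X i : MvPolynomial ℕ E) g) =
      if i = j then Polynomial.aeval (X i : MvPolynomial ℕ E) (Polynomial.derivative g) else 0 := by
  rw [Polynomial.aeval_def, Polynomial.aeval_def]
  induction g using Polynomial.induction_on' with
  | add p q hp hq =>
    rw [Polynomial.eval₂_add, map_add, hp, hq, Polynomial.derivative_add, Polynomial.eval₂_add]
    split_ifs <;> simp
  | monomial m a =>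
    rw [Polynomial.eval₂_monomial, Derivation.leibniz, Derivation.leibniz_pow]
    rw [MvPolynomial.algebraMap_eq, pderiv_C, smul_zero, add_zero, pderiv_X,
      Polynomial.derivative_monomial, Polynomial.eval₂_monomial]
    by_cases hij : i = j
    · subst hij
      rw [Pi.single_eq_same, if_pos rfl]
      simp only [smul_eq_mul, nsmul_eq_mul, map_mul, map_natCast]
      ring
    · rw [Pi.single_eq_of_ne hij, if_neg hij]
      simp

theorem isUj_of_isForm {c n : ℕ} {f : MvPolynomial ℕ E} (hf : IsForm c n f) : IsUj c f := by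
  classical
  obtain ⟨h, g, hc, -, rfl⟩ := hf
  refine ⟨h.vars, hc, fun i j hij hG => ?_⟩
  have hcomm : ∀ (p : MvPolynomial ℕ E), pderiv i (pderiv j p) = pderiv j (pderiv i p) := by
    intro p
    have h1 : ⁅(pderiv i : Derivation E (MvPolynomial ℕ E) (MvPolynomial ℕ E)),
        (pderiv j : Derivation E (MvPolynomial ℕ E) (MvPolynomial ℕ E))⁆ = 0 := by
      apply MvPolynomial.derivation_ext
      intro l
      rw [Derivation.commutator_apply, pderiv_X, pderiv_X]
      have h2 : ∀ (a b : ℕ), pderiv a ((Pi.single b (1 : MvPolynomial ℕ E) : ℕ → MvPolynomial ℕ E) l) = 0 := by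
        intro a b
        by_cases hb : l = b
        · subst hb
          rw [Pi.single_eq_same]
          exact pderiv_one
        · rw [Pi.single_eq_of_ne hb, map_zero]
      rw [h2, h2, sub_zero]
      rfl
    have h3 := congrArg (fun D : Derivation E (MvPolynomial ℕ E) (MvPolynomial ℕ E) => D p) h1
    simp only [Derivation.commutator_apply] at h3
    exact sub_eq_zero.1 h3
  rw [map_add, map_add, map_sum, map_sum]
  have h1 : pderiv i (pderiv j h) = 0 := by
    rcases hG with hi | hj
    · rw [hcomm, pderiv_eq_zero_of_notMem_vars hi, map_zero]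
    · rw [pderiv_eq_zero_of_notMem_vars hj, map_zero]
  rw [h1, zero_add]
  refine Finset.sum_eq_zero fun l _ => ?_
  rw [pderiv_aeval_X]
  split_ifs with hl
  · rw [pderiv_aeval_X, if_neg]
    intro h2
    exact hij (h2 ▸ hl)
  · rw [map_zero]

theorem og_of_vars {c : ℕ} {a : MvPolynomial ℕ E} (h : a.vars.card ≤ c) : OG c ∅ a := by
  intro s hs
  rw [Finset.sdiff_empty]
  refine (Finset.card_le_card ?_).trans h
  intro i hi
  exact (mem_vars_iff_mem_support i).2 ⟨s, hs, hi⟩

theorem og_isForm {c n : ℕ} {f : MvPolynomial ℕ E} (hf : IsForm c n f) : OG (c + 1) ∅ f := by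
  obtain ⟨h, g, hc, -, rfl⟩ := hf
  refine og_add (og_of_vars (hc.trans (Nat.le_succ c))) (og_sum _ _ fun i _ => og_of_vars ?_)
  refine (Finset.card_le_card (aeval_X_vars i (g i))).trans ?_
  simp

end Pool.Agent.PW.H82
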